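import Pool.Agent.H24.UG.T7
import Pool.Agent.H74.AG.S4b

/-!
# Board ulg_modules, row US4b: the bound of the switching lemma is additive and the steps are small
-/

set_option autoImplicit false

open MeasureTheory ProbabilityTheory Filter Topology Finset
open scoped Nat ENNReal

namespace Pool.Agent.H56.UG

open Pool.Agent.H24.UG
open Pool.Agent.H24.T2 (Pset)
open Pool.Agent.H67.AG (avgP ul Inv Rt Av SA kap JJ TT InvZ nxt triv tow XN PN TN XX PX TX prX Fac
  Tup dl Dlt Mis bd κ₀ Sw SwE)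
open Pool.Agent.H74.AG (AB meas_it meas_mv mv_bd meas_FF FF_bd meas_gg gg_bd meas_Av Av_bd ce_bd)

theorem AB_mono {Ω : Type} [MeasurableSpace Ω] {C C' : ℝ} {f : Set Ω → ℝ} (h : AB C f)
    (hC : C ≤ C') : AB C' f :=
  ⟨h.nn, fun B hB => (h.le B hB).trans hC, h.ad⟩

/-- the bound of the switching lemma is additive -/
theorem EX_AB (hul : Pool.Agent.H67.AG.T_UL) (d : Sw) (e : SwE d) (σ : ℕ → ℝ) (hσ : Sgn σ)
    (L L₂ : ℕ) : ∃ C, AB C (EX e σ L L₂) := by
  have hk : (0 : ℝ) ≤ d.k := Nat.cast_nonneg _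
  have hmv : ∀ l, AB 1 (fun B => ∫ ω in B, e.mv l ω ∂e.P) := fun l =>
    AB.int e.P (meas_mv e l) (fun ω => (mv_bd e l ω).1)
      (Filter.Eventually.of_forall fun ω => (mv_bd e l ω).2)
  have hs : ∀ p, |σ p| ≤ 1 := by
    intro p
    rcases hσ p with h | h | h <;> rw [h] <;> norm_num
  have hLam : AB 1 (fun B => Lm d.U d.W e.P e.T d.β σ e.ys B) := by
    unfold Lm
    exact AB.ul hul _ fun m => AB.avg zero_le_one _ _ fun p =>
      AB_mono ((AB.inter e.P _).mul |σ p| (abs_nonneg _)) (by rw [mul_one]; exact hs p)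
  have hE2 := AB.sum (Finset.univ : Finset (Fin d.k → Fin d.n)) (C := fun _ => 2)
    (f := fun j B => ul (hyperfilter ℕ) fun L'' => ul d.U fun m => avgP d.W m fun p =>
      ∫ ω in B, |Av d.T' d.W L (d.FF p j) (e.g ω) - Av d.T' d.W L'' (d.FF p j) (e.g ω)| ∂e.P)
    (fun j => AB.ul hul _ fun L'' => AB.ul hul _ fun m => AB.avg (by norm_num) _ _ fun p =>
      AB.int e.P
        (((meas_Av d.T' d.W L (meas_FF p j)).comp e.fac.1.measurable).sub
          ((meas_Av d.T' d.W L'' (meas_FF p j)).comp e.fac.1.measurable)).abs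
        (fun ω => abs_nonneg _)
        (Filter.Eventually.of_forall fun ω => by
          have h1 := Av_bd d.T' d.W L (FF_bd p j) (e.g ω)
          have h2 := Av_bd d.T' d.W L'' (FF_bd p j) (e.g ω)
          rw [abs_le] at h1 h2 ⊢
          constructor <;> linarith))
  have hE3 : ∀ i : Fin d.k, AB _ (fun B => e.E3 L₂ i B) := fun i =>
    (((AB.sum (range L₂) fun l => hmv (Dlt d.β * l)).mul (4 / (L₂ : ℝ)) (by positivity)).add
      ((AB.sum (range (Dlt d.β)) fun r => hmv r).mul (2 / (Dlt d.β : ℝ)) (by positivity))).add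
      (AB.sum (Finset.univ : Finset (Fin d.n)) fun a =>
        AB.sum (Finset.univ : Finset (Fin d.n)) fun b =>
          AB.int (C := 2) e.P
            (((meas_Av d.T' (d.W * Dlt d.β) L₂ (meas_gg a b i)).comp e.fac.1.measurable).sub
              ((stronglyMeasurable_condExp.measurable.mono
                (MeasurableSpace.invariants_le _) le_rfl).comp e.fac.1.measurable)).abs
            (fun ω => abs_nonneg _)
            (by
              have h3 := e.fac.1.quasiMeasurePreserving.ae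
                (ce_bd d.P' (Inv d.T' d.W) (gg_bd a b i))
              filter_upwards [h3] with ω h2
              have h1 := Av_bd d.T' (d.W * Dlt d.β) L₂ (gg_bd a b i) (e.g ω)
              rw [abs_le] at h1 h2 ⊢
              constructor <;> linarith))
  have hfin := ((((hLam.mul 2 (by norm_num)).add
    ((AB.sum (range L) fun l => hmv l).mul (2 * d.k / (L : ℝ)) (by positivity))).add hE2).add
      ((AB.sum (Finset.univ : Finset (Fin d.k)) hE3).mul d.k hk)).add
        ((AB.real e.P).mul ((d.k : ℝ) ^ 2 / d.w) (by positivity))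
  exact ⟨_, hfin⟩

theorem pf_US4b (hul : Pool.Agent.H67.AG.T_UL) (hec : Pool.Agent.H67.AG.T_EC) : T_US4b := by
  intro d e σ L L₂ hσ hL hL₂
  obtain ⟨C, hC⟩ := EX_AB hul d e σ hσ L L₂
  obtain ⟨_, _, h3, h4⟩ := Pool.Agent.H74.AG.pf_S4b hul hec d e L L₂ hL hL₂
  exact ⟨hC.nn, hC.ad, h3, h4⟩

end Pool.Agent.H56.UG
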